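import Mathlib

/-!
Local subrings of a field, and values of fractions under a ring homomorphism.
-/

set_option linter.unusedSectionVars false

namespace Pool.Agent.MP_e8e0b6_ag

variable {Ω Ω' : Type} [Field Ω] [Field Ω'] {W W' : Subring Ω} {a b : Ω}

/-- `a` is a unit of the subring `W`. -/
def Un (W : Subring Ω) (a : Ω) : Prop := a ∈ W ∧ a ≠ 0 ∧ a⁻¹ ∈ W

/-- The subring `W` is local. -/
def Loc (W : Subring Ω) : Prop := ∀ a ∈ W, Un W a ∨ Un W (1 - a)

theorem Un.one : Un W 1 := ⟨W.one_mem, one_ne_zero, by simp⟩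

theorem Un.mul (h : Un W a) (h' : Un W b) : Un W (a * b) :=
  ⟨W.mul_mem h.1 h'.1, mul_ne_zero h.2.1 h'.2.1, by
    rw [mul_inv]; exact W.mul_mem h.2.2 h'.2.2⟩

theorem Un.inv (h : Un W a) : Un W a⁻¹ := ⟨h.2.2, inv_ne_zero h.2.1, by simpa using h.1⟩

theorem Un.div (h : Un W a) (h' : Un W b) : Un W (a / b) := by
  rw [div_eq_mul_inv]; exact h.mul h'.inv

theorem Un.neg (h : Un W a) : Un W (-a) :=
  ⟨W.neg_mem h.1, neg_ne_zero.2 h.2.1, by rw [inv_neg]; exact W.neg_mem h.2.2⟩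

theorem Un.pow (h : Un W a) (n : ℕ) : Un W (a ^ n) := by
  induction n with
  | zero => simpa using Un.one
  | succ n ih => rw [pow_succ]; exact ih.mul h

theorem Un.prod {ι : Type} {s : Finset ι} {f : ι → Ω} (h : ∀ i ∈ s, Un W (f i)) :
    Un W (∏ i ∈ s, f i) :=
  Finset.prod_induction f (Un W) (fun _ _ => Un.mul) Un.one h

theorem Un.mono (h : Un W a) (hle : W ≤ W') : Un W' a := ⟨hle h.1, h.2.1, hle h.2.2⟩

theorem Un.left (h : Un W (a * b)) (ha : a ∈ W) (hb : b ∈ W) : Un W a := by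
  have h0 := right_ne_zero_of_mul h.2.1
  refine ⟨ha, left_ne_zero_of_mul h.2.1, ?_⟩
  have : a⁻¹ = (a * b)⁻¹ * b := by field_simp
  rw [this]; exact W.mul_mem h.2.2 hb

theorem Un.right (h : Un W (a * b)) (ha : a ∈ W) (hb : b ∈ W) : Un W b :=
  Un.left (mul_comm a b ▸ h) hb ha

theorem Un.of_pow {n : ℕ} (h : Un W (a ^ (n + 1))) (ha : a ∈ W) : Un W a :=
  Un.right (pow_succ a n ▸ h) (W.pow_mem ha n) ha

theorem Un.div_mem (h : Un W b) (ha : a ∈ W) : a / b ∈ W := by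
  rw [div_eq_mul_inv]; exact W.mul_mem ha h.2.2

theorem Un.mem_of_mul (h : Un W a) (hb : a * b ∈ W) : b ∈ W := by
  have := W.mul_mem h.2.2 hb
  rwa [inv_mul_cancel_left₀ h.2.1] at this

theorem un_of_div (ha : a ≠ 0) (hb : b ≠ 0) (h : a / b ∈ W) (h' : b / a ∈ W) : Un W (a / b) :=
  ⟨h, div_ne_zero ha hb, by rwa [inv_div]⟩

theorem un_comap {φ : Ω' →+* Ω} {c : Ω'} : Un (W.comap φ) c ↔ Un W (φ c) := by
  simp [Un]

theorem un_iff_isUnit {x : W} : Un W x ↔ IsUnit x := by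
  refine ⟨fun h => isUnit_iff_exists_inv.2 ⟨⟨_, h.2.2⟩, Subtype.ext (mul_inv_cancel₀ h.2.1)⟩, ?_⟩
  rintro ⟨u, rfl⟩
  have h : ((u : W) : Ω) * ((u⁻¹ : Wˣ) : W) = 1 := congrArg Subtype.val u.mul_inv
  exact ⟨(u : W).2, left_ne_zero_of_mul_eq_one h, by
    rw [← eq_inv_of_mul_eq_one_right h]; exact ((u⁻¹ : Wˣ) : W).2⟩

theorem Loc.add (hW : Loc W) (ha : a ∈ W) (hb : b ∈ W) (h : Un W (a + b)) : Un W a ∨ Un W b := by
  rcases hW _ (h.div_mem ha) with h1 | h1
  · exact Or.inl (by simpa [h.2.1] using h1.mul h)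
  · refine Or.inr ?_
    have := h1.mul h
    rwa [sub_mul, one_mul, div_mul_cancel₀ _ h.2.1, add_sub_cancel_left] at this

theorem Loc.add_un (hW : Loc W) (ha : Un W a) (hb : b ∈ W) (h : ¬ Un W b) : Un W (a + b) := by
  refine (hW.add (W.add_mem ha.1 hb) (W.neg_mem hb) (by simpa using ha)).resolve_right fun h' => ?_
  exact h (by simpa using h'.neg)

theorem Loc.sum (hW : Loc W) {ι : Type} {s : Finset ι} {f : ι → Ω} (hf : ∀ i ∈ s, f i ∈ W)
    (h : Un W (∑ i ∈ s, f i)) : ∃ i ∈ s, Un W (f i) := by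
  classical
  induction s using Finset.induction_on with
  | empty => exact absurd rfl h.2.1
  | insert i s hi ih =>
    rw [Finset.sum_insert hi] at h
    have hs := fun j hj => hf j (Finset.mem_insert_of_mem hj)
    rcases hW.add (hf i (Finset.mem_insert_self _ _)) (W.sum_mem hs) h with h1 | h1
    · exact ⟨i, Finset.mem_insert_self _ _, h1⟩
    · obtain ⟨j, hj, h2⟩ := ih hs h1
      exact ⟨j, Finset.mem_insert_of_mem hj, h2⟩

theorem Loc.comap (hW : Loc W) (φ : Ω' →+* Ω) : Loc (W.comap φ) := fun c hc => by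
  rw [un_comap, un_comap, map_sub, map_one]
  exact hW _ hc

theorem loc_iff : Loc W ↔ IsLocalRing W := by
  refine ⟨fun h => IsLocalRing.of_isUnit_or_isUnit_one_sub_self fun x => ?_, fun h x hx => ?_⟩
  · exact (h x x.2).imp un_iff_isUnit.1 fun h => un_iff_isUnit.1 h
  · exact (IsLocalRing.isUnit_or_isUnit_one_sub_self (⟨x, hx⟩ : W)).imp un_iff_isUnit.2
      fun h => un_iff_isUnit.2 h

theorem loc_top : Loc (⊤ : Subring Ω) := fun a _ => by
  by_cases h : a = 0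
  · exact Or.inr (by simpa [h] using Un.one)
  · exact Or.inl ⟨trivial, h, trivial⟩

theorem loc_valuation (V : ValuationSubring Ω) : Loc V.toSubring :=
  loc_iff.2 (inferInstanceAs (IsLocalRing V))

section
variable {R T : Type} [CommRing R] [CommRing T]

/-- The localisation at a prime, inside a field. -/
def locS (r : R →+* Ω) (p : Ideal R) [hp : p.IsPrime] : Subring Ω where
  carrier := {ω | ∃ a s, s ∉ p ∧ ω * r s = r a}
  one_mem' := ⟨1, 1, hp.one_notMem, by simp⟩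
  zero_mem' := ⟨0, 1, hp.one_notMem, by simp⟩
  mul_mem' := by
    rintro _ _ ⟨a, s, hs, h⟩ ⟨a', s', hs', h'⟩
    exact ⟨a * a', s * s', hp.mul_notMem hs hs', by
      rw [map_mul, map_mul, ← h, ← h']; ring⟩
  add_mem' := by
    rintro _ _ ⟨a, s, hs, h⟩ ⟨a', s', hs', h'⟩
    exact ⟨a * s' + a' * s, s * s', hp.mul_notMem hs hs', by
      rw [map_add, map_mul, map_mul, map_mul, ← h, ← h']; ring⟩
  neg_mem' := by
    rintro _ ⟨a, s, hs, h⟩
    exact ⟨-a, s, hs, by rw [map_neg, ← h]; ring⟩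

variable {r : R →+* Ω} {p : Ideal R} [hp : p.IsPrime]

theorem mem_locS {ω : Ω} : ω ∈ locS r p ↔ ∃ a s, s ∉ p ∧ ω * r s = r a := Iff.rfl

theorem map_mem_locS (x : R) : r x ∈ locS r p := ⟨x, 1, hp.one_notMem, by simp⟩

theorem un_locS (hr : Function.Injective r) {x : R} : Un (locS r p) (r x) ↔ x ∉ p := by
  refine ⟨fun ⟨_, h0, a, s, hs, h⟩ hx => hs ?_, fun hx => ?_⟩
  · have : s = x * a := hr (by rw [map_mul, ← h]; field_simp)
    exact this ▸ p.mul_mem_right _ hx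
  · have h0 : r x ≠ 0 := fun h => hx (by rw [hr (h.trans (map_zero r).symm)]; exact p.zero_mem)
    exact ⟨map_mem_locS x, h0, 1, x, hx, by simp [h0]⟩

theorem loc_locS (hr : Function.Injective r) : Loc (locS r p) := by
  rintro ω ⟨a, s, hs, h⟩
  have h1 := (un_locS hr).2 hs
  have e : ω = r a / r s := eq_div_of_mul_eq h1.2.1 h
  by_cases ha : a ∈ p
  · have h2 : s - a ∉ p := fun h' => hs (by simpa using p.add_mem h' ha)
    have := ((un_locS hr).2 h2).div h1
    rw [map_sub, sub_div, div_self h1.2.1, ← e] at this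
    exact Or.inr this
  · exact Or.inl (e ▸ ((un_locS hr).2 ha).div h1)

/-- The centre of a local subring. -/
def ctr (r : R →+* Ω) (hW : Loc W) (h : ∀ x, r x ∈ W) : Ideal R where
  carrier := {x | ¬ Un W (r x)}
  zero_mem' := fun h => h.2.1 (map_zero r)
  add_mem' := fun {x y} hx hy hxy => (hW.add (h x) (h y) (map_add r x y ▸ hxy)).elim hx hy
  smul_mem' := fun c x hx hcx => hx (Un.right (by simpa using hcx) (h c) (h x))

theorem mem_ctr {hW : Loc W} {h : ∀ x, r x ∈ W} {x : R} : x ∈ ctr r hW h ↔ ¬ Un W (r x) := Iff.rfl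

instance (hW : Loc W) (h : ∀ x, r x ∈ W) : (ctr r hW h).IsPrime :=
  ⟨(Ideal.ne_top_iff_one _).2 fun h1 => h1 (by simpa using Un.one), fun {x y} hxy => by
    by_contra! h1
    exact hxy (by simpa using (not_not.1 h1.1).mul (not_not.1 h1.2))⟩

theorem locS_le (h : ∀ x, r x ∈ W) (hp : ∀ s ∉ p, Un W (r s)) : locS r p ≤ W := by
  rintro ω ⟨a, s, hs, e⟩
  exact (hp s hs).mem_of_mul (by rw [mul_comm, e]; exact h a)

theorem locS_ctr_le (hW : Loc W) (h : ∀ x, r x ∈ W) : locS r (ctr r hW h) ≤ W :=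
  locS_le h fun _ hs => not_not.1 hs

theorem un_locS_ctr (hr : Function.Injective r) (hW : Loc W) (h : ∀ x, r x ∈ W) {ω : Ω}
    (hω : ω ∈ locS r (ctr r hW h)) (hu : Un W ω) : Un (locS r (ctr r hW h)) ω := by
  obtain ⟨a, s, hs, e⟩ := hω
  have h1 := (un_locS hr).2 hs
  have h2 : Un W (r a) := e ▸ hu.mul (not_not.1 hs)
  exact (eq_div_of_mul_eq h1.2.1 e).symm ▸ ((un_locS hr).2 (not_not.2 h2)).div h1

/-- The ideal of common denominators of a set. -/
def den (r : R →+* Ω) (S : Set Ω) : Ideal R where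
  carrier := {s | ∀ ω ∈ S, ∃ a, ω * r s = r a}
  zero_mem' := fun _ _ => ⟨0, by simp⟩
  add_mem' := fun {x y} hx hy ω hω => by
    obtain ⟨a, ha⟩ := hx ω hω
    obtain ⟨b, hb⟩ := hy ω hω
    exact ⟨a + b, by rw [map_add, map_add, mul_add, ha, hb]⟩
  smul_mem' := fun c x hx ω hω => by
    obtain ⟨a, ha⟩ := hx ω hω
    exact ⟨c * a, by rw [smul_eq_mul, map_mul, map_mul, ← ha]; ring⟩

theorem exists_den {S : Set Ω} (hS : S.Finite) (h : S ⊆ locS r p) : ∃ s ∈ den r S, s ∉ p := by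
  classical
  choose! a s hs e using fun ω (hω : ω ∈ S) => mem_locS.1 (h hω)
  refine ⟨∏ ω ∈ hS.toFinset, s ω, fun ω hω => ⟨a ω * ∏ ω' ∈ hS.toFinset.erase ω, s ω', ?_⟩,
    fun h' => ?_⟩
  · rw [← Finset.mul_prod_erase _ _ (hS.mem_toFinset.2 hω), map_mul, map_mul, ← mul_assoc, e ω hω]
  · obtain ⟨ω, hω, h1⟩ := Ideal.IsPrime.prod_mem_iff.1 h'
    exact hs ω (hS.mem_toFinset.1 hω) h1

/-- An element that lies in all localisations lies in the ring. -/
theorem mem_range_of_loc {ω : Ω} (h : ∀ (m : Ideal R) [m.IsMaximal], ω ∈ locS r m) :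
    ∃ x, r x = ω := by
  by_cases h1 : den r {ω} = ⊤
  · obtain ⟨a, ha⟩ := ((Ideal.eq_top_iff_one _).1 h1) ω rfl
    exact ⟨a, by simpa using ha.symm⟩
  · obtain ⟨m, hm, hle⟩ := Ideal.exists_le_maximal _ h1
    obtain ⟨s, hs, h2⟩ := exists_den (Set.finite_singleton ω) (Set.singleton_subset_iff.2 (h m))
    exact absurd (hle hs) h2

theorem mem_of_loc {A : Subring Ω} {ω : Ω} (h : ∀ W, Loc W → A ≤ W → ω ∈ W) : ω ∈ A := by
  obtain ⟨x, rfl⟩ := mem_range_of_loc (r := A.subtype) (ω := ω) fun m _ =>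
    h _ (loc_locS Subtype.val_injective) fun x hx => map_mem_locS (r := A.subtype) ⟨x, hx⟩
  exact x.2

/-- `j` is the value under `θ` of the fraction `ω`. -/
def Ext (r : R →+* Ω) (θ : R →+* T) (ω : Ω) (j : T) : Prop :=
  ∃ a s, IsUnit (θ s) ∧ ω * r s = r a ∧ j * θ s = θ a

variable {θ : R →+* T} {ω ω' : Ω} {j j' : T}

theorem Ext.of (x : R) : Ext r θ (r x) (θ x) := ⟨x, 1, by simp, by simp, by simp⟩

theorem Ext.one : Ext r θ 1 1 := by simpa using Ext.of (r := r) (θ := θ) 1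

theorem Ext.zero : Ext r θ 0 0 := by simpa using Ext.of (r := r) (θ := θ) 0

theorem Ext.mul (h : Ext r θ ω j) (h' : Ext r θ ω' j') : Ext r θ (ω * ω') (j * j') := by
  obtain ⟨a, s, hs, h1, h2⟩ := h
  obtain ⟨a', s', hs', h1', h2'⟩ := h'
  exact ⟨a * a', s * s', by simpa using ⟨hs, hs'⟩, by rw [map_mul, map_mul, ← h1, ← h1']; ring,
    by rw [map_mul, map_mul, ← h2, ← h2']; ring⟩

theorem Ext.add (h : Ext r θ ω j) (h' : Ext r θ ω' j') : Ext r θ (ω + ω') (j + j') := by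
  obtain ⟨a, s, hs, h1, h2⟩ := h
  obtain ⟨a', s', hs', h1', h2'⟩ := h'
  exact ⟨a * s' + a' * s, s * s', by simpa using ⟨hs, hs'⟩,
    by rw [map_add, map_mul, map_mul, map_mul, ← h1, ← h1']; ring,
    by rw [map_add, map_mul, map_mul, map_mul, ← h2, ← h2']; ring⟩

theorem Ext.neg (h : Ext r θ ω j) : Ext r θ (-ω) (-j) := by
  obtain ⟨a, s, hs, h1, h2⟩ := h
  exact ⟨-a, s, hs, by rw [map_neg, ← h1]; ring, by rw [map_neg, ← h2]; ring⟩

theorem Ext.sub (h : Ext r θ ω j) (h' : Ext r θ ω' j') : Ext r θ (ω - ω') (j - j') := by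
  simpa [sub_eq_add_neg] using h.add h'.neg

theorem Ext.pow (h : Ext r θ ω j) (n : ℕ) : Ext r θ (ω ^ n) (j ^ n) := by
  induction n with
  | zero => simpa using Ext.one
  | succ n ih => rw [pow_succ, pow_succ]; exact ih.mul h

theorem Ext.sum {ι : Type} {s : Finset ι} {f : ι → Ω} {g : ι → T}
    (h : ∀ i ∈ s, Ext r θ (f i) (g i)) : Ext r θ (∑ i ∈ s, f i) (∑ i ∈ s, g i) := by
  classical
  induction s using Finset.induction_on with
  | empty => simpa using Ext.zero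
  | insert i s hi ih =>
    rw [Finset.sum_insert hi, Finset.sum_insert hi]
    exact (h i (Finset.mem_insert_self _ _)).add (ih fun j hj => h j (Finset.mem_insert_of_mem hj))

theorem Ext.prod {ι : Type} {s : Finset ι} {f : ι → Ω} {g : ι → T}
    (h : ∀ i ∈ s, Ext r θ (f i) (g i)) : Ext r θ (∏ i ∈ s, f i) (∏ i ∈ s, g i) := by
  classical
  induction s using Finset.induction_on with
  | empty => simpa using Ext.one
  | insert i s hi ih =>
    rw [Finset.prod_insert hi, Finset.prod_insert hi]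
    exact (h i (Finset.mem_insert_self _ _)).mul (ih fun j hj => h j (Finset.mem_insert_of_mem hj))

theorem Ext.unique (hr : Function.Injective r) (h : Ext r θ ω j) (h' : Ext r θ ω j') : j = j' := by
  obtain ⟨a, s, hs, h1, h2⟩ := h
  obtain ⟨a', s', hs', h1', h2'⟩ := h'
  have e : a * s' = a' * s := hr (by rw [map_mul, map_mul, ← h1, ← h1']; ring)
  refine (hs.mul hs').mul_right_cancel ?_
  rw [← mul_assoc, h2, ← map_mul, e, map_mul, ← h2']; ring

theorem Ext.ne_zero [Nontrivial T] (hr : Function.Injective r) (h : Ext r θ ω j) (hj : j ≠ 0) :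
    ω ≠ 0 := fun h0 => hj (Ext.unique hr h (h0 ▸ Ext.zero))

/-- Division by an element whose value is a unit. -/
theorem Ext.of_mul {ν : Ω} {i : T} (h : Ext r θ ω j)
    (h' : Ext r θ ω' j') (hj : IsUnit j') (e : ν * ω' = ω) (e' : i * j' = j) : Ext r θ ν i := by
  obtain ⟨a, s, hs, h1, h2⟩ := h
  obtain ⟨a', s', hs', h1', h2'⟩ := h'
  refine ⟨a * s', s * a', by simpa [← h2'] using ⟨hs, hj, hs'⟩, ?_, ?_⟩
  · rw [map_mul, map_mul, ← h1, ← h1', ← e]; ring
  · rw [map_mul, map_mul, ← h2, ← h2', ← e']; ring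

theorem Ext.comp {T' : Type} [CommRing T'] (h : Ext r θ ω j) (g : T →+* T') :
    Ext r (g.comp θ) ω (g j) := by
  obtain ⟨a, s, hs, h1, h2⟩ := h
  exact ⟨a, s, hs.map g, h1, by simp [← h2]⟩

/-- Change of the ring of numerators and of the field. -/
theorem Ext.trans {R' : Type} [CommRing R'] {r' : R' →+* Ω'} {θ' : R' →+* T}
    (φ : Ω →+* Ω') (H : ∀ x, Ext r' θ' (φ (r x)) (θ x))
    (h : Ext r θ ω j) : Ext r' θ' (φ ω) j := by
  obtain ⟨a, s, hs, h1, h2⟩ := h
  exact (H a).of_mul (H s) hs (by rw [← map_mul, h1]) h2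

variable (r θ) in
/-- The graph of `Ext`. -/
def graph : Subring (Ω × T) where
  carrier := {x | Ext r θ x.1 x.2}
  one_mem' := Ext.one
  zero_mem' := Ext.zero
  mul_mem' := Ext.mul
  add_mem' := Ext.add
  neg_mem' := Ext.neg

variable (r θ) in
/-- The elements that have a value. -/
def dom : Subring Ω := (graph r θ).map (RingHom.fst Ω T)

theorem mem_dom : ω ∈ dom r θ ↔ ∃ j, Ext r θ ω j :=
  ⟨fun ⟨x, hx, e⟩ => ⟨x.2, e ▸ hx⟩, fun ⟨j, h⟩ => ⟨(ω, j), h, rfl⟩⟩

theorem Ext.un [Nontrivial T] (hr : Function.Injective r) (h : Ext r θ ω j) (hj : IsUnit j) :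
    Un (dom r θ) ω := by
  have h0 := h.ne_zero hr hj.ne_zero
  obtain ⟨u, rfl⟩ := hj
  exact ⟨mem_dom.2 ⟨_, h⟩, h0, mem_dom.2 ⟨_, Ext.one.of_mul h u.isUnit (inv_mul_cancel₀ h0)
    u.inv_mul⟩⟩

theorem Ext.isUnit (hr : Function.Injective r) (h : Ext r θ ω j) (hu : Un (dom r θ) ω) :
    IsUnit j := by
  obtain ⟨i, hi⟩ := mem_dom.1 hu.2.2
  have := h.mul hi
  rw [mul_inv_cancel₀ hu.2.1] at this
  exact IsUnit.of_mul_eq_one _ (this.unique hr Ext.one)

theorem loc_dom [IsLocalRing T] (hr : Function.Injective r) : Loc (dom r θ) := fun ω hω => by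
  obtain ⟨j, h⟩ := mem_dom.1 hω
  exact (IsLocalRing.isUnit_or_isUnit_one_sub_self j).imp (h.un hr) ((Ext.one.sub h).un hr)

/-- The value map as a ring homomorphism. -/
theorem exists_val (hr : Function.Injective r) :
    ∃ v : dom r θ →+* T, ∀ x : dom r θ, Ext r θ x (v x) := by
  choose v hv using fun x : dom r θ => mem_dom.1 x.2
  exact ⟨{ toFun := v
           map_one' := (hv 1).unique hr Ext.one
           map_zero' := (hv 0).unique hr Ext.zero
           map_mul' := fun x y => (hv _).unique hr ((hv x).mul (hv y))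
           map_add' := fun x y => (hv _).unique hr ((hv x).add (hv y)) }, hv⟩

end

end Pool.Agent.MP_e8e0b6_ag
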