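import Pool.Agent.MP_e8e0b6_ag.G.PL

/-!
A variety given by its affine charts inside its function field; local sprays and their
extension after twisting by a divisor.
-/

set_option linter.unusedSectionVars false

open Polynomial TrivSqZeroExt

namespace Pool.Agent.MP_e8e0b6_ag

/-- Affine charts of a locally factorial variety with function field `K`. -/
structure Model (k K I : Type) [Field k] [Field K] [Algebra k K] where
  B : I → Subalgebra k K
  fg : ∀ i, (B i).FG
  frac : ∀ i f, ∃ s ∈ B i, s ≠ 0 ∧ s * f ∈ B i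
  sep : ∀ i j W, Loc W → (B i : Set K) ⊆ W → (B j : Set K) ⊆ W →
    ∀ a ∈ B i, ∃ s ∈ B j, Un W s ∧ s * a ∈ B j
  ufd : ∀ i W, Loc W → (B i : Set K) ⊆ W → ∃ O : Subring K, Loc O ∧ UniqueFactorizationMonoid O ∧
    (B i : Set K) ⊆ O ∧ O ≤ W ∧ ∀ f ∈ O, ∃ s ∈ B i, Un O s ∧ s * f ∈ B i

variable {k K I : Type} [Field k] [Field K] [Algebra k K]

/-- `β` is a common denominator of `a`. -/
def Den (A : Subalgebra k K) (a : Finset K) (β : K) : Prop := β ∈ A ∧ ∀ f ∈ a, β * f ∈ A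

/-- `h` generates the common denominators of `a` in `W`. -/
def Gen (A : Subalgebra k K) (a : Finset K) (W : Subring K) (h : K) : Prop :=
  Den A a h ∧ h ≠ 0 ∧ ∀ β, Den A a β → β / h ∈ W

theorem Gen.mono {A : Subalgebra k K} {a : Finset K} {W W' : Subring K} {h : K} (H : Gen A a W h)
    (hle : W ≤ W') : Gen A a W' h := ⟨H.1, H.2.1, fun β hβ => hle (H.2.2 β hβ)⟩

theorem exists_common (A : Subalgebra k K) (W : Subring K) (S : Finset K)
    (h : ∀ f ∈ S, ∃ s ∈ A, Un W s ∧ s * f ∈ A) : ∃ s ∈ A, Un W s ∧ ∀ f ∈ S, s * f ∈ A := by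
  classical
  choose! s hs hu e using h
  refine ⟨∏ f ∈ S, s f, A.prod_mem hs, Un.prod hu, fun f hf => ?_⟩
  rw [← Finset.mul_prod_erase _ _ hf, mul_right_comm]
  exact A.mul_mem (e f hf) (A.prod_mem fun g hg => hs g (Finset.mem_of_mem_erase hg))

theorem exists_den_mul (A : Subalgebra k K) (W : Subring K) (a : Finset K) (β : K)
    (h : ∃ s ∈ A, Un W s ∧ s * β ∈ A) (h' : ∀ f ∈ a, ∃ s ∈ A, Un W s ∧ s * (β * f) ∈ A) :
    ∃ s, Un W s ∧ Den A a (s * β) := by
  classical
  obtain ⟨s, hs, hu, e⟩ := exists_common A W (insert β (a.image (β * ·))) (by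
    simp only [Finset.mem_insert, Finset.mem_image]
    rintro _ (rfl | ⟨f, hf, rfl⟩)
    exacts [h, h' f hf])
  exact ⟨s, hu, e β (Finset.mem_insert_self _ _), fun f hf => by
    rw [mul_assoc]; exact e _ (Finset.mem_insert_of_mem (Finset.mem_image_of_mem _ hf))⟩

namespace Model

variable (M : Model k K I)

theorem exists_den (i : I) (a : Finset K) : ∃ β ≠ 0, Den (M.B i) a β := by
  have h : ∀ f, ∃ s ∈ M.B i, Un ⊤ s ∧ s * f ∈ M.B i := fun f => by
    obtain ⟨s, h1, h2, h3⟩ := M.frac i f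
    exact ⟨s, h1, ⟨trivial, h2, trivial⟩, h3⟩
  obtain ⟨s, hu, hs⟩ := exists_den_mul (M.B i) ⊤ a 1 (h _) fun f _ => h _
  exact ⟨_, mul_ne_zero hu.2.1 one_ne_zero, hs⟩

theorem exists_gen {i : I} {W : Subring K} (hW : Loc W) (hi : (M.B i : Set K) ⊆ W) (a : Finset K) :
    ∃ h, Gen (M.B i) a W h := by
  obtain ⟨O, -, hO, h1, h2, h3⟩ := M.ufd i W hW hi
  have hd : ∀ β (hβ : Den (M.B i) a β), (⟨β, h1 hβ.1⟩ : O) ∈ den O.subtype (a : Set K) :=
    fun β hβ f hf => ⟨⟨β * f, h1 (hβ.2 f hf)⟩, mul_comm _ _⟩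
  obtain ⟨β₀, h0, hβ₀⟩ := M.exists_den i a
  obtain ⟨g, hg, hg0, hdvd⟩ := den_principal Subtype.val_injective (r := O.subtype) (a : Set K)
    ((Submodule.ne_bot_iff _).2 ⟨_, hd β₀ hβ₀, fun h => h0 (congrArg Subtype.val h)⟩)
  obtain ⟨s, hs, hsg⟩ := exists_den_mul (M.B i) O a g (h3 _ g.2) fun f hf => h3 _ (by
    obtain ⟨c, hc⟩ := hg f hf
    rw [mul_comm]; exact (show f * g = c from hc) ▸ c.2)
  have hg0' : (g : K) ≠ 0 := fun h => hg0 (Subtype.ext h)
  refine ⟨s * g, hsg, mul_ne_zero hs.2.1 hg0', fun β hβ => h2 ?_⟩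
  obtain ⟨c, hc⟩ := hdvd _ (hd β hβ)
  have e : β = g * c := congrArg Subtype.val hc
  have := hs.div_mem c.2
  convert this using 1
  rw [e]; field_simp

theorem div_gen_mem {i j : I} {W : Subring K} (hW : Loc W) (hi : (M.B i : Set K) ⊆ W)
    (hj : (M.B j : Set K) ⊆ W) {a : Finset K} {β h : K} (hβ : Den (M.B i) a β)
    (hh : Gen (M.B j) a W h) : β / h ∈ W := by
  obtain ⟨s, hs, h1⟩ := exists_den_mul (M.B j) W a β (M.sep i j W hW hi hj β hβ.1)
    fun f hf => M.sep i j W hW hi hj _ (hβ.2 f hf)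
  exact hs.mem_of_mul (by rw [← mul_div_assoc]; exact hh.2.2 _ h1)

theorem un_gen {i j : I} {W : Subring K} (hW : Loc W) (hi : (M.B i : Set K) ⊆ W)
    (hj : (M.B j : Set K) ⊆ W) {a : Finset K} {h h' : K} (H : Gen (M.B i) a W h)
    (H' : Gen (M.B j) a W h') : Un W (h / h') :=
  un_of_div H.2.1 H'.2.1 (M.div_gen_mem hW hi hj H.1 H') (M.div_gen_mem hW hj hi H'.1 H)

theorem den_fg (i : I) (a : Finset K) : ∃ T : Finset K, (∀ β ∈ T, Den (M.B i) a β) ∧
    ∀ β, Den (M.B i) a β → ∃ c : K → K, (∀ t, c t ∈ M.B i) ∧ β = ∑ t ∈ T, c t * t := by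
  classical
  have := (M.B i).fg_iff_finiteType.1 (M.fg i)
  have : IsNoetherianRing (M.B i) := Algebra.FiniteType.isNoetherianRing k _
  obtain ⟨T, hT⟩ := IsNoetherian.noetherian (den (M.B i).val.toRingHom (a : Set K))
  refine ⟨T.image Subtype.val, fun β hβ => ?_, fun β hβ => ?_⟩
  · obtain ⟨t, ht, rfl⟩ := Finset.mem_image.1 hβ
    refine ⟨t.2, fun f hf => ?_⟩
    obtain ⟨c, hc⟩ := (hT ▸ Submodule.subset_span ht : t ∈ den _ (a : Set K)) f hf
    rw [mul_comm]; exact (show f * t = c from hc) ▸ c.2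
  · have : (⟨β, hβ.1⟩ : M.B i) ∈ Submodule.span (M.B i) (T : Set (M.B i)) :=
      hT ▸ fun f hf => ⟨⟨β * f, hβ.2 f hf⟩, mul_comm _ _⟩
    obtain ⟨c, -, hc⟩ := Submodule.mem_span_finset.1 this
    refine ⟨fun t => if h : t ∈ M.B i then c ⟨t, h⟩ else 0, fun t => ?_, ?_⟩
    · dsimp only
      split_ifs
      exacts [(c _).2, zero_mem _]
    · rw [Finset.sum_image fun _ _ _ _ => Subtype.val_injective.eq_iff.1]
      simpa using (congrArg Subtype.val hc).symm

/-- One of finitely many fixed denominators is a generator. -/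
theorem exists_un {i : I} {a : Finset K} {T : Finset K} (hT : ∀ β ∈ T, Den (M.B i) a β)
    (hT' : ∀ β, Den (M.B i) a β → ∃ c : K → K, (∀ t, c t ∈ M.B i) ∧ β = ∑ t ∈ T, c t * t)
    {W : Subring K} (hW : Loc W) (hi : (M.B i : Set K) ⊆ W) {h : K} (H : Gen (M.B i) a W h) :
    ∃ β ∈ T, Un W (β / h) := by
  obtain ⟨c, hc, e⟩ := hT' h H.1
  have h1 : ∀ t ∈ T, t / h ∈ W := fun t ht => H.2.2 t (hT t ht)
  obtain ⟨t, ht, hu⟩ := hW.sum (s := T) (f := fun t => c t * (t / h))
    (fun t ht => W.mul_mem (hi (hc t)) (h1 t ht)) (by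
      simp_rw [← mul_div_assoc]
      rw [← Finset.sum_div, ← e, div_self H.2.1]; exact Un.one)
  exact ⟨t, ht, hu.right (hi (hc t)) (h1 t ht)⟩

end Model

/-- A local ring at a point of the zero section maps into the local ring of that point. -/
theorem zero_dom {Ω R : Type} [Field Ω] [CommRing R] {r : R →+* Ω} (hr : Function.Injective r)
    (φ : K →+* Ω) (ev : R →+* K) (H : ∀ f p q, φ f * r q = r p → f * ev q = ev p)
    (n : Ideal R) [n.IsPrime] (O : Subring K) (hO : ∀ x, ev x ∈ O) (hn : ∀ x, x ∉ n ↔ Un O (ev x))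
    {f : K} (hf : φ f ∈ locS r n) : f ∈ O ∧ (Un O f → Un (locS r n) (φ f)) := by
  obtain ⟨p, q, hq, e⟩ := hf
  have h1 := H f p q e
  have h2 := (hn q).1 hq
  exact ⟨h2.mem_of_mul (by rw [mul_comm, h1]; exact hO p), fun hu =>
    (un_locS_iff hr).2 ⟨p, q, (hn p).2 (h1 ▸ hu.mul h2), hq, e⟩⟩

/-- A spray of rank one defined on the open set where the functions `a` are regular. -/
structure Datum (M : Model k K I) where
  φ : K →+* RatFunc K
  δ : Derivation k K K
  a : Finset K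
  const : ∀ c : k, φ (algebraMap k K c) = algebraMap K _ (algebraMap k K c)
  jet : ∀ f, Ext (algebraMap K[X] (RatFunc K)) (aeval (inr 1 : DualNumber K)).toRingHom (φ f)
    (inl f + inr (δ f))
  loc : ∀ W : Subring (RatFunc K), Loc W → (∀ c : k, algebraMap K _ (algebraMap k K c) ∈ W) →
    (∀ f ∈ a, algebraMap K _ f ∈ W) → RatFunc.X ∈ W → ∃ j, (M.B j : Set K) ⊆ W.comap φ

namespace Datum

variable {M : Model k K I} (d : Datum M)

theorem zero (f : K) (p q : K[X]) (h : d.φ f * algebraMap _ _ q = algebraMap _ _ p) :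
    f * q.coeff 0 = p.coeff 0 := by
  have h1 := (d.jet f).mul (Ext.of q)
  rw [h] at h1
  have h2 := congrArg fst (h1.unique (IsFractionRing.injective _ _) (Ext.of p))
  have h3 : ∀ p : K[X], fst (aeval DualNumber.eps p : DualNumber K) = p.coeff 0 := fun p => by
    have := aeval_algHom_apply (fstHom K K K) DualNumber.eps p
    simp only [fstHom_apply, DualNumber.fst_eps] at this
    rw [← this, coeff_zero_eq_aeval_zero]
  simpa [h3] using h2

end Datum

/-- The ring `A[1/β]`. -/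
def away (A : Subalgebra k K) (β : K) (hβ : β ∈ A) : Subring K where
  carrier := {f | ∃ n : ℕ, β ^ n * f ∈ A}
  one_mem' := ⟨0, by simp⟩
  zero_mem' := ⟨0, by simp⟩
  mul_mem' := by
    rintro x y ⟨n, h⟩ ⟨m, h'⟩
    exact ⟨n + m, by convert A.mul_mem h h' using 1; ring⟩
  add_mem' := by
    rintro x y ⟨n, h⟩ ⟨m, h'⟩
    exact ⟨n + m, by
      convert A.add_mem (A.mul_mem (A.pow_mem hβ m) h) (A.mul_mem (A.pow_mem hβ n) h') using 1
      ring⟩
  neg_mem' := by
    rintro x ⟨n, h⟩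
    exact ⟨n, by simpa using A.neg_mem h⟩

/-- The inclusion of `A[t]` in `K(t)`. -/
noncomputable def polyIn (A : Subring K) : A[X] →+* RatFunc K :=
  (algebraMap K[X] (RatFunc K)).comp (mapRingHom A.subtype)

theorem polyIn_inj (A : Subring K) : Function.Injective (polyIn A) :=
  (IsFractionRing.injective K[X] _).comp (map_injective _ Subtype.val_injective)

theorem polyIn_C (A : Subring K) (c : A) : polyIn A (C c) = algebraMap K _ (c : K) := by
  simp [polyIn]

theorem polyIn_X (A : Subring K) : polyIn A X = RatFunc.X := by simp [polyIn]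

theorem scale_mem {A : Subalgebra k K} {β : K} (hβ : β ∈ A) (h0 : β ≠ 0) (P : (away A β hβ)[X]) :
    ∃ m₀, ∀ m ≥ m₀, ∀ W : Subring (RatFunc K), (A : Set K) ⊆ W.comap (algebraMap K _) →
      RatFunc.X / algebraMap K _ β ^ m ∈ W → polyIn _ (X * P) / algebraMap K _ β ∈ W := by
  induction P using Polynomial.induction_on' with
  | add P Q hP hQ =>
    obtain ⟨m₁, h₁⟩ := hP
    obtain ⟨m₂, h₂⟩ := hQ
    refine ⟨max m₁ m₂, fun m hm W hA hX => ?_⟩
    rw [mul_add, map_add, add_div]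
    exact W.add_mem (h₁ m (le_of_max_le_left hm) W hA hX) (h₂ m (le_of_max_le_right hm) W hA hX)
  | monomial n c =>
    obtain ⟨l, hl⟩ := c.2
    refine ⟨l + 1, fun m hm W hA hX => ?_⟩
    obtain ⟨m, rfl⟩ := Nat.exists_eq_add_of_le hm
    have hb : algebraMap K (RatFunc K) β ≠ 0 := by simpa using h0
    have := W.mul_mem (W.mul_mem (hA hl) (W.pow_mem (hA hβ) (m + (l + 1 + m) * n)))
      (W.pow_mem hX (n + 1))
    convert this using 1
    rw [← C_mul_X_pow_eq_monomial, map_mul, map_mul, map_pow, polyIn_C, polyIn_X, map_mul, map_pow,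
      div_pow]
    field_simp
    ring

namespace Datum

variable {M : Model k K I} (d : Datum M)

theorem den_sup {i : I} {β : K} (hβ : Den (M.B i) d.a β) (S : Finset K)
    (hS : (S : Set K) ⊆ M.B i) :
    den (polyIn (away (M.B i) β hβ.1)) (d.φ '' S) ⊔ Ideal.span {X} = ⊤ := by
  set A := away (M.B i) β hβ.1
  by_contra h
  obtain ⟨n, hn, hle⟩ := Ideal.exists_le_maximal _ h
  have hA : ∀ b ∈ M.B i, b ∈ A := fun b hb => ⟨0, by simpa using hb⟩
  have hX : X ∈ n := hle (Ideal.mem_sup_right (Ideal.mem_span_singleton_self _))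
  have hC : ∀ c : A, algebraMap K _ (c : K) ∈ locS (polyIn A) n := fun c =>
    polyIn_C A c ▸ map_mem_locS _
  obtain ⟨j, hj⟩ := d.loc (locS (polyIn A) n) (loc_locS (polyIn_inj A))
    (fun c => hC ⟨_, hA _ (algebraMap_mem _ c)⟩) (fun f hf => hC ⟨f, 1, by simpa using hβ.2 f hf⟩)
    (polyIn_X A ▸ map_mem_locS _)
  have hz := fun f => zero_dom (f := f) (polyIn_inj A) d.φ (A.subtype.comp constantCoeff)
    (fun f p q h => by simpa using d.zero f _ _ h) n (locS A.subtype (n.comap C))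
    (fun x => map_mem_locS _) (fun x => by
      rw [RingHom.comp_apply, un_locS Subtype.val_injective, Ideal.mem_comap, not_iff_not]
      conv_lhs => rw [← X_mul_divX_add x]
      exact n.add_mem_iff_right (n.mul_mem_right _ hX))
  obtain ⟨s, hs, hsn⟩ := exists_den (r := polyIn A) (p := n) (S.finite_toSet.image d.φ) (by
    rintro _ ⟨b, hb, rfl⟩
    obtain ⟨s, hs, hu, e⟩ := M.sep i j _ (loc_locS Subtype.val_injective)
      (fun b hb => map_mem_locS (r := A.subtype) ⟨b, hA b hb⟩) (fun b hb => (hz b (hj hb)).1)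
      b (hS hb)
    exact ((hz s (hj hs)).2 hu).mem_of_mul (map_mul d.φ s b ▸ hj e))
  exact hsn (hle (Ideal.mem_sup_left hs))

theorem exists_exp {i : I} {β : K} (hβ : Den (M.B i) d.a β) (h0 : β ≠ 0) :
    ∃ m₀, ∀ m ≥ m₀, ∀ W : Subring (RatFunc K), Loc W →
      (M.B i : Set K) ⊆ W.comap (algebraMap K _) → RatFunc.X / algebraMap K _ β ^ m ∈ W →
      ∃ j, (M.B j : Set K) ⊆ W.comap d.φ := by
  classical
  obtain ⟨S, hS⟩ := M.fg i
  have hSB : (S : Set K) ⊆ M.B i := hS ▸ Algebra.subset_adjoin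
  obtain ⟨Q, hQ, Y, hY, e⟩ := Submodule.mem_sup.1
    ((Ideal.eq_top_iff_one _).1 (d.den_sup hβ S hSB))
  have hQ0 : Q.coeff 0 = 1 := by
    have := congrArg (coeff · 0) e
    simpa [X_dvd_iff.1 (Ideal.mem_span_singleton.1 hY)] using this
  choose! P hP using fun b (hb : b ∈ S) => hQ _ ⟨b, hb, rfl⟩
  choose μ hμ using fun R : (away (M.B i) β hβ.1)[X] => scale_mem hβ.1 h0 R.divX
  refine ⟨max (μ Q) (S.sup fun b => μ (P b)), fun m hm W hW hi hX => ?_⟩
  have hb : algebraMap K (RatFunc K) β ∈ W := hi hβ.1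
  have hb0 : algebraMap K (RatFunc K) β ≠ 0 := by simpa using h0
  by_cases hu : Un W (algebraMap K _ β)
  · refine d.loc W hW (fun c => hi (algebraMap_mem _ c)) (fun f hf => ?_) ?_
    · exact hu.mem_of_mul (map_mul (algebraMap K (RatFunc K)) β f ▸ hi (hβ.2 f hf))
    · have := W.mul_mem hX (W.pow_mem hb m)
      rwa [div_mul_cancel₀ _ (pow_ne_zero _ hb0)] at this
  have key : ∀ R, μ R ≤ m → ∃ w ∈ W, polyIn _ R = algebraMap K _ (R.coeff 0 : K) +
      algebraMap K _ β * w := fun R hR => ⟨_, hμ R m hR W hi hX, by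
    rw [mul_div_cancel₀ _ hb0, ← polyIn_C, ← map_add, add_comm, X_mul_divX_add]⟩
  have hQu : Un W (polyIn _ Q) := by
    obtain ⟨w, hw, e⟩ := key Q (le_of_max_le_left hm)
    rw [e, hQ0]
    exact hW.add_un (by simpa using Un.one) (W.mul_mem hb hw) fun h => hu (h.left hb hw)
  refine ⟨i, fun b hb => ?_⟩
  rw [← hS] at hb
  induction hb using Algebra.adjoin_induction with
  | mem b hb =>
    obtain ⟨w, hw, e⟩ := key (P b) ((Finset.le_sup (f := fun b => μ (P b)) hb).trans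
      (le_of_max_le_right hm))
    have h1 : ((P b).coeff 0 : K) = b := by simpa [hQ0] using (d.zero b _ _ (hP b hb)).symm
    refine hQu.mem_of_mul ?_
    rw [mul_comm, hP b hb, e, h1]
    exact W.add_mem (hi (hSB hb)) (W.mul_mem (hi hβ.1) hw)
  | algebraMap c =>
    change d.φ _ ∈ W
    rw [d.const]; exact hi (algebraMap_mem _ c)
  | add x y _ _ hx hy => exact Subring.add_mem _ hx hy
  | mul x y _ _ hx hy => exact Subring.mul_mem _ hx hy

/-- Gromov's localisation lemma. -/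
theorem exists_twist [Finite I] : ∃ m, ∀ (i : I) (W : Subring (RatFunc K)) (h : K), Loc W →
    (M.B i : Set K) ⊆ W.comap (algebraMap K _) → Gen (M.B i) d.a (W.comap (algebraMap K _)) h →
    RatFunc.X / algebraMap K _ h ^ m ∈ W → ∃ j, (M.B j : Set K) ⊆ W.comap d.φ := by
  classical
  have := Fintype.ofFinite I
  choose T hT hT' using fun i => M.den_fg i d.a
  choose! μ hμ using fun i β (h : Den (M.B i) d.a β ∧ β ≠ 0) => d.exists_exp h.1 h.2
  refine ⟨Finset.univ.sup fun i => (T i).sup (μ i), fun i W h hW hi hh hX => ?_⟩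
  obtain ⟨β, hβ, hu⟩ := M.exists_un (hT i) (hT' i) (hW.comap _) hi hh
  have h0 : β ≠ 0 := fun h => hu.2.1 (by simp [h])
  refine hμ i β ⟨hT i β hβ, h0⟩ _ ((Finset.le_sup hβ).trans
    (Finset.le_sup (f := fun i => (T i).sup (μ i)) (Finset.mem_univ i))) W hW hi ?_
  have := W.mul_mem hX (W.pow_mem hu.2.2 (Finset.univ.sup fun i => (T i).sup (μ i)))
  convert this using 1
  have h1 : algebraMap K (RatFunc K) h ≠ 0 := by simpa using hh.2.1
  rw [inv_div, map_div₀, div_pow]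
  field_simp

end Datum

end Pool.Agent.MP_e8e0b6_ag
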