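import Pool.Agent.MP_e8e0b6_ag.G.Basic

/-!
Locally principal fractional ideals of a factorial ring are principal.
-/

set_option linter.unusedSectionVars false

namespace Pool.Agent.MP_e8e0b6_ag

variable {Ω R : Type} [Field Ω] [CommRing R] {r : R →+* Ω}

theorem un_locS_iff (hr : Function.Injective r) {p : Ideal R} [p.IsPrime] {ω : Ω} :
    Un (locS r p) ω ↔ ∃ a s, a ∉ p ∧ s ∉ p ∧ ω * r s = r a := by
  refine ⟨fun h => ?_, fun ⟨a, s, ha, hs, e⟩ => ?_⟩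
  · obtain ⟨a, s, hs, e⟩ := h.1
    exact ⟨a, s, (un_locS hr).1 (e ▸ h.mul ((un_locS hr).2 hs)), hs, e⟩
  · have h1 := (un_locS hr).2 hs
    exact (eq_div_of_mul_eq h1.2.1 e).symm ▸ ((un_locS hr).2 ha).div h1

theorem un_locS_bot [IsDomain R] (hr : Function.Injective r) {ω : Ω} (h : ω ∈ locS r ⊥)
    (h0 : ω ≠ 0) : Un (locS r ⊥) ω := by
  obtain ⟨a, s, hs, e⟩ := h
  refine (un_locS_iff hr).2 ⟨a, s, fun ha => ?_, hs, e⟩
  rw [Ideal.mem_bot.1 ha, map_zero] at e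
  exact ((un_locS hr).2 hs).2.1 ((mul_eq_zero.1 e).resolve_left h0)

variable [IsDomain R] [UniqueFactorizationMonoid R]

theorem exists_min (J : Ideal R) (hJ : J ≠ ⊥) :
    ∃ h ∈ J, h ≠ 0 ∧ ∀ b ∈ J, ∀ c, h = b * c → IsUnit c := by
  obtain ⟨x, hx, h0⟩ := J.ne_bot_iff.1 hJ
  obtain ⟨h, hh, hmin⟩ := wellFounded_dvdNotUnit.has_min {y | y ∈ J ∧ y ≠ 0} ⟨x, hx, h0⟩
  refine ⟨h, hh.1, hh.2, fun b hb c e => by_contra fun hc => ?_⟩
  have hb0 : b ≠ 0 := fun h' => hh.2 (by rw [e, h', zero_mul])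
  exact hmin b ⟨hb, hb0⟩ ⟨hb0, c, hc, e⟩

/-- The common denominators form a principal ideal. -/
theorem den_principal (hr : Function.Injective r) (S : Set Ω) (h : den r S ≠ ⊥) :
    ∃ g ∈ den r S, g ≠ 0 ∧ ∀ b ∈ den r S, g ∣ b := by
  obtain ⟨g, hg, h0, hmin⟩ := exists_min _ h
  refine ⟨g, hg, h0, fun b hb => ?_⟩
  obtain ⟨g', b', d, hc, e1, e2⟩ := UniqueFactorizationMonoid.exists_reduced_factors g h0 b
  have hd : d ∈ den r S := fun ω hω => by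
    obtain ⟨c, hc1⟩ := hg ω hω
    obtain ⟨c', hc2⟩ := hb ω hω
    have e : g' * c' = b' * c := hr (by
      rw [map_mul, map_mul, ← hc1, ← hc2, ← e1, ← e2, map_mul, map_mul]; ring)
    obtain ⟨c'', rfl⟩ : g' ∣ c := hc.dvd_of_dvd_mul_left ⟨c', e.symm⟩
    have hg' : r g' ≠ 0 := (map_ne_zero_iff r hr).2 (right_ne_zero_of_mul (e1 ▸ h0))
    refine ⟨c'', mul_left_cancel₀ hg' ?_⟩
    rw [← map_mul, ← hc1, ← e1, map_mul]; ring
  obtain ⟨u, rfl⟩ := hmin d hd g' e1.symm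
  exact ⟨u⁻¹ * b', by rw [← e1, ← e2]; simp [mul_assoc]⟩

theorem exists_prime_nonunit {W : Subring Ω} (h : ∀ x, r x ∈ W) (a : R) (h0 : a ≠ 0)
    (ha : ¬ Un W (r a)) : ∃ p, Prime p ∧ p ∣ a ∧ ¬ Un W (r p) := by
  induction a using UniqueFactorizationMonoid.induction_on_prime with
  | h₁ => exact absurd rfl h0
  | h₂ x hx =>
    obtain ⟨u, rfl⟩ := hx
    exact absurd (Un.left (by rw [← map_mul, u.mul_inv, map_one]; exact Un.one) (h _) (h _)) ha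
  | h₃ a p ha0 hp ih =>
    by_cases h1 : Un W (r p)
    · obtain ⟨q, hq, h2, h3⟩ := ih ha0 fun h2 => ha (by simpa using h1.mul h2)
      exact ⟨q, hq, h2.mul_left _, h3⟩
    · exact ⟨p, hp, dvd_mul_right _ _, h1⟩

theorem div_prime_mem (hr : Function.Injective r) {q : Ideal R} [q.IsPrime] {p : R} (hp : Prime p)
    [(Ideal.span {p}).IsPrime] {ω : Ω} (h : ω ∈ locS r q)
    (h' : ω / r p ∈ locS r (Ideal.span {p})) : ω / r p ∈ locS r q := by
  obtain ⟨a, s, hs, e⟩ := h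
  obtain ⟨a', s', hs', e'⟩ := h'
  have h0 : r p ≠ 0 := (map_ne_zero_iff r hr).2 hp.ne_zero
  have e2 : a * s' = p * (a' * s) := hr (by
    rw [map_mul, map_mul, map_mul, ← e, ← e']; field_simp)
  obtain ⟨c, rfl⟩ := (hp.dvd_or_dvd ⟨_, e2⟩).resolve_right
    fun h => hs' (Ideal.mem_span_singleton.2 h)
  exact ⟨c, s, hs, by rw [div_mul_eq_mul_div, e, map_mul]; field_simp⟩

theorem exists_generator (hr : Function.Injective r) (G : Subring Ω → Ω → Prop)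
    (hex : ∀ W, Loc W → (∀ x, r x ∈ W) → ∃ g, G W g)
    (hmem : ∀ W g, G W g → g ∈ W ∧ g ≠ 0) (hmono : ∀ W W' g, W ≤ W' → G W g → G W' g)
    (hc : ∀ W g g', Loc W → G W g → G W g' → g / g' ∈ W)
    (N : R) (hN : N ≠ 0) (hN' : ∀ W g, (∀ x, r x ∈ W) → G W g → r N / g ∈ W) :
    ∃ Λ ≠ 0, ∀ W g, Loc W → (∀ x, r x ∈ W) → G W g → Un W (r Λ / g) := by
  let J : Ideal R :=
    { carrier := {b | ∀ W g, Loc W → (∀ x, r x ∈ W) → G W g → r b / g ∈ W}
      zero_mem' := fun W _ _ _ _ => by simp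
      add_mem' := fun {x y} hx hy W g h1 h2 h3 => by
        rw [map_add, add_div]; exact W.add_mem (hx W g h1 h2 h3) (hy W g h1 h2 h3)
      smul_mem' := fun c x hx W g h1 h2 h3 => by
        rw [smul_eq_mul, map_mul, mul_div_assoc]; exact W.mul_mem (h2 c) (hx W g h1 h2 h3) }
  obtain ⟨Λ, hΛ, h0, hmin⟩ := exists_min J
    (J.ne_bot_iff.2 ⟨N, fun W g _ h2 h3 => hN' W g h2 h3, hN⟩)
  have core : ∀ W g, (hW : Loc W) → (h : ∀ x, r x ∈ W) → G W g →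
      ∃ g₀, G (locS r (ctr r hW h)) g₀ ∧ Un W (g₀ / g) := fun W g hW h hg => by
    obtain ⟨g₀, h1⟩ := hex (locS r (ctr r hW h)) (loc_locS hr) map_mem_locS
    have h2 := hmono _ _ _ (locS_ctr_le hW h) h1
    exact ⟨g₀, h1, un_of_div (hmem _ _ h2).2 (hmem _ _ hg).2 (hc W _ _ hW h2 hg)
      (hc W _ _ hW hg h2)⟩
  refine ⟨Λ, h0, fun W g hW h hg => by_contra fun hu => ?_⟩
  obtain ⟨g₀, hg₀, hu₀⟩ := core W g hW h hg
  have hg0 := (hmem _ _ hg₀).2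
  obtain ⟨a, s, hs, e⟩ := hΛ _ g₀ (loc_locS hr) map_mem_locS hg₀
  have hs' : Un W (r s) := not_not.1 hs
  have ha : ¬ Un W (r a) := fun ha => hu (by
    have := (ha.div hs').mul hu₀
    rwa [← e, mul_div_cancel_right₀ _ hs'.2.1, div_mul_div_cancel₀ hg0] at this)
  have ha0 : a ≠ 0 := fun h1 => by
    rw [h1, map_zero] at e
    exact mul_ne_zero (div_ne_zero ((map_ne_zero_iff r hr).2 h0) hg0) hs'.2.1 e
  obtain ⟨p, hp, ⟨a', rfl⟩, hpW⟩ := exists_prime_nonunit h a ha0 ha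
  have hpp := (Ideal.span_singleton_prime hp.ne_zero).2 hp
  have hp0 : r p ≠ 0 := (map_ne_zero_iff r hr).2 hp.ne_zero
  have hle : ∀ (q : Ideal R) [q.IsPrime], p ∈ q → locS r q ≤ locS r (Ideal.span {p}) :=
    fun q _ hq => locS_le map_mem_locS fun s hs => (un_locS hr).2 fun h1 =>
      hs ((Ideal.span_singleton_le_iff_mem q).2 hq h1)
  have hV := hle (ctr r hW h) hpW
  have h1 : r Λ / g₀ / r p ∈ locS r (Ideal.span {p}) := hV ⟨a', s, hs, by
    rw [div_mul_eq_mul_div, e, map_mul]; field_simp⟩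
  have h2 : r Λ / r p ∈ locS r (Ideal.span {p}) := by
    have := Subring.mul_mem _ h1 (hV (hmem _ _ hg₀).1)
    rwa [div_right_comm, div_mul_cancel₀ _ hg0] at this
  obtain ⟨Λ', rfl⟩ : p ∣ Λ := by
    obtain ⟨c, t, ht, e'⟩ := h2
    refine (hp.dvd_or_dvd ⟨c, hr ?_⟩).resolve_right fun h => ht (Ideal.mem_span_singleton.2 h)
    rw [map_mul, map_mul, ← e']; field_simp
  refine hp.not_isUnit (hmin Λ' (fun W' g' hW' h' hg' => ?_) p (mul_comm _ _))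
  obtain ⟨g₁, hg₁, hu₁⟩ := core W' g' hW' h' hg'
  have hg1 := (hmem _ _ hg₁).2
  have h3 := hΛ _ g₁ (loc_locS hr) map_mem_locS hg₁
  have h4 : r (p * Λ') / g₁ / r p ∈ locS r (ctr r hW' h') := by
    by_cases hq : p ∈ ctr r hW' h'
    · refine div_prime_mem hr hp h3 ?_
      have := Subring.mul_mem _ h1 (hc _ _ _ (loc_locS hr) (hmono _ _ _ hV hg₀)
        (hmono _ _ _ (hle _ hq) hg₁))
      convert this using 1
      field_simp
    · exact ((un_locS hr).2 hq).div_mem h3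
  have := W'.mul_mem (locS_ctr_le hW' h' h4) hu₁.1
  convert this using 1
  rw [map_mul]; field_simp

end Pool.Agent.MP_e8e0b6_ag
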