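import Pool.Agent.MP_e8e0b6_ag.G.Model

/-!
Composition of sprays whose bundles are sums of line bundles.
-/

set_option linter.unusedSectionVars false

open MvPolynomial TrivSqZeroExt

namespace Pool.Agent.MP_e8e0b6_ag

variable {k K I : Type} [Field k] [Field K] [Algebra k K] {σ : Type}

/-- Rescaling of the variables together with a change of the coefficients. -/
noncomputable def crd {A : Type} [CommRing A] (κ : A →+* K) (u : σ → K) :
    MvPolynomial σ A →+* MvPolynomial σ K :=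
  (aeval fun l => C (u l) * X l : MvPolynomial σ K →ₐ[K] MvPolynomial σ K).toRingHom.comp (map κ)

section
variable {A : Type} [CommRing A] (κ : A →+* K) (u : σ → K)

theorem crd_C (a : A) : crd κ u (C a) = C (κ a) := by simp [crd]

theorem crd_X (l : σ) : crd κ u (X l) = C (u l) * X l := by simp [crd]

theorem crd_inj (hκ : Function.Injective κ) (hu : ∀ l, u l ≠ 0) : Function.Injective (crd κ u) := by
  refine (Function.LeftInverse.injective
    (f := (aeval fun l => C (u l) * X l : MvPolynomial σ K →ₐ[K] MvPolynomial σ K))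
    (g := (aeval fun l => C (u l)⁻¹ * X l : MvPolynomial σ K →ₐ[K] MvPolynomial σ K))
    fun p => ?_).comp (map_injective κ hκ)
  have : (aeval fun l => C (u l)⁻¹ * X l : MvPolynomial σ K →ₐ[K] MvPolynomial σ K).comp
      (aeval fun l => C (u l) * X l) = AlgHom.id _ _ := algHom_ext fun l => by
    simp [← mul_assoc, ← C_mul, hu l]
  exact DFunLike.congr_fun this p

theorem constantCoeff_crd (p : MvPolynomial σ A) :
    constantCoeff (crd κ u p) = κ (constantCoeff p) := by
  have : constantCoeff.comp (crd κ u) = κ.comp constantCoeff :=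
    ringHom_ext (fun a => by simp [crd_C]) fun l => by simp [crd_X]
  exact DFunLike.congr_fun this p

theorem map_mem_of_gen {Ω : Type} [Field Ω] (r : MvPolynomial σ A →+* Ω) (W : Subring Ω)
    (h : ∀ a, r (C a) ∈ W) (h' : ∀ l, r (X l) ∈ W) (p : MvPolynomial σ A) : r p ∈ W := by
  induction p using MvPolynomial.induction_on with
  | C a => exact h a
  | add p q hp hq => rw [map_add]; exact W.add_mem hp hq
  | mul_X p l hp => rw [map_mul]; exact W.mul_mem hp (h' l)

end

/-- The first-order jet at the origin in the direction `c`. -/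
noncomputable def jetAt (c : σ → K) : MvPolynomial σ K →+* DualNumber K :=
  (aeval fun l => (inr (c l) : DualNumber K)).toRingHom

theorem fst_jetAt (c : σ → K) (p : MvPolynomial σ K) : fst (jetAt c p) = constantCoeff p := by
  have : (fstHom K K K).toRingHom.comp (jetAt c) = constantCoeff :=
    ringHom_ext (fun a => by simp [jetAt]) fun l => by simp [jetAt]
  exact DFunLike.congr_fun this p

/-- A spray on the sum of the line bundles attached to the data `d`, `m`, given by the map `φ` of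
function fields. -/
structure State (M : Model k K I) [Fintype σ] (d : σ → Datum M) (m : σ → ℕ) {Ω : Type} [Field Ω]
    (ι : MvPolynomial σ K →+* Ω) (φ : K →+* Ω) : Prop where
  inj : Function.Injective ι
  frac : ∀ ω, ω ∈ locS ι ⊥
  const : ∀ c : k, φ (algebraMap k K c) = ι (C (algebraMap k K c))
  jet : ∀ (c : σ → K) f, Ext ι (jetAt c) (φ f) (inl f + inr (∑ l, c l * (d l).δ f))
  good : ∀ (i : I) (W : Subring Ω) (h : σ → K), Loc W → (M.B i : Set K) ⊆ W.comap (ι.comp C) →
    (∀ l, Gen (M.B i) (d l).a (W.comap (ι.comp C)) (h l)) →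
    (∀ l, ι (X l) / ι (C (h l)) ^ m l ∈ W) → ∃ j, (M.B j : Set K) ⊆ W.comap φ

namespace State

variable {M : Model k K I} [Fintype σ] {d : σ → Datum M} {m : σ → ℕ} {Ω : Type} [Field Ω]
  {ι : MvPolynomial σ K →+* Ω} {φ : K →+* Ω} (S : State M d m ι φ)
include S

theorem zero (f : K) (p q : MvPolynomial σ K) (h : φ f * ι q = ι p) :
    f * constantCoeff q = constantCoeff p := by
  have h1 := (S.jet 0 f).mul (Ext.of q)
  rw [h] at h1
  simpa [fst_jetAt] using congrArg fst (h1.unique S.inj (Ext.of p))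

omit S in
/-- The pull-backs under `φ` of the local equations of the divisor of `a`. -/
def Pb (M : Model k K I) (φ : K →+* Ω) (a : Finset K) (W : Subring Ω) (g : Ω) : Prop :=
  ∃ j h, (M.B j : Set K) ⊆ W.comap φ ∧ Gen (M.B j) a (W.comap φ) h ∧ g = φ h

theorem exists_local [Finite I] (a : Finset K) {i : I} {O : Subring K} (hO : Loc O)
    [UniqueFactorizationMonoid O] (hi : (M.B i : Set K) ⊆ O) {h : σ → K}
    (hh : ∀ l, Gen (M.B i) (d l).a O (h l)) {h' : K} (hh' : Gen (M.B i) a O h') :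
    ∃ Λ, constantCoeff Λ = 1 ∧ ∀ W g, Loc W → O ≤ W.comap (ι.comp C) →
      (∀ l, ι (X l) / ι (C (h l)) ^ m l ∈ W) → Pb M φ a W g → Un W (ι Λ * ι (C h') / g) := by
  classical
  have := Fintype.ofFinite I
  let u : σ → K := fun l => (h l ^ m l)⁻¹
  let r := ι.comp (crd O.subtype u)
  have hr : Function.Injective r := S.inj.comp (crd_inj _ _ Subtype.val_injective fun l =>
    inv_ne_zero (pow_ne_zero _ (hh l).2.1))
  have hC : ∀ c : O, r (C c) = ι (C c) := fun c => congrArg ι (crd_C _ _ c)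
  have hX : ∀ l, r (X l) = ι (X l) / ι (C (h l)) ^ m l := fun l => by
    change ι (crd _ _ _) = _
    rw [crd_X, map_mul, mul_comm, div_eq_mul_inv, ← map_pow, ← C_pow]
    exact congrArg _ (map_inv₀ (ι.comp C) _)
  have hex : ∀ W, Loc W → (∀ x, r x ∈ W) → ∃ g, Pb M φ a W g := fun W hW hx => by
    have h1 : O ≤ W.comap (ι.comp C) := fun c hc => by
      have := hx (C ⟨c, hc⟩); rwa [hC] at this
    obtain ⟨j, hj⟩ := S.good i W h hW (fun b hb => h1 (hi hb)) (fun l => (hh l).mono h1)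
      fun l => hX l ▸ hx _
    obtain ⟨g, hg⟩ := M.exists_gen (hW.comap φ) hj a
    exact ⟨_, j, g, hj, hg, rfl⟩
  choose β hβ0 hβ using fun j => M.exists_den j a
  choose p q hq e using fun j => mem_locS.1 (S.frac (φ (β j)))
  have hden : ∀ j, ∃ p' q', p' ≠ 0 ∧ φ (β j) * r q' = r p' := fun j => by
    have hK : ∀ c : K, ι (C c) ∈ locS r ⊥ := fun c => by
      obtain ⟨s, hs, h0, h1⟩ := M.frac i c
      refine ⟨C ⟨_, hi h1⟩, C ⟨s, hi hs⟩, by simpa [Subtype.ext_iff] using h0, ?_⟩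
      rw [hC, hC, ← map_mul, ← C_mul, mul_comm]
    have hι : ∀ x, ι x ∈ locS r ⊥ := map_mem_of_gen ι _ hK fun l => by
      have := Subring.mul_mem _ (hX l ▸ map_mem_locS (r := r) (p := ⊥) (X l))
        (Subring.pow_mem _ (hK (h l)) (m l))
      rwa [div_mul_cancel₀ _ (pow_ne_zero _ ((map_ne_zero_iff _ S.inj).2
        (by simpa using (hh l).2.1)))] at this
    have h1 := un_locS_bot hr (hι (q j)) ((map_ne_zero_iff _ S.inj).2 (by simpa using hq j))
    have h2 : φ (β j) ∈ locS r ⊥ := h1.mem_of_mul (by rw [mul_comm, e]; exact hι _)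
    obtain ⟨p', q', hp', -, e'⟩ := (un_locS_iff hr).1 (un_locS_bot hr h2 (by simpa using hβ0 j))
    exact ⟨p', q', by simpa using hp', e'⟩
  choose p' q' hp' e' using hden
  obtain ⟨Λ, h0, hΛ⟩ := exists_generator hr (Pb M φ a) hex
    (by rintro W _ ⟨j, g, hj, hg, rfl⟩; exact ⟨hj hg.1.1, by simpa using hg.2.1⟩)
    (by rintro W W' _ hle ⟨j, g, hj, hg, rfl⟩
        exact ⟨j, g, fun b hb => hle (hj hb), hg.mono fun b hb => hle hb, rfl⟩)
    (by rintro W _ _ hW ⟨j, g, hj, hg, rfl⟩ ⟨j', g', hj', hg', rfl⟩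
        rw [← map_div₀]
        exact (M.un_gen (hW.comap φ) hj hj' hg hg').1)
    (∏ j, p' j) (Finset.prod_ne_zero_iff.2 fun j _ => hp' j) (by
      rintro W _ hx ⟨j, g, hj, hg, rfl⟩
      rw [← Finset.mul_prod_erase _ _ (Finset.mem_univ j), map_mul, ← e', mul_assoc,
        mul_div_right_comm, ← map_div₀]
      exact W.mul_mem (hg.2.2 _ (hβ j)) (W.mul_mem (hx _) (hx _)))
  let ev : MvPolynomial σ O →+* K := O.subtype.comp constantCoeff
  have hev : ∀ x, ev x ∈ O := fun x => (constantCoeff x).2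
  have hz0 : ∀ f p q, φ f * r q = r p → f * ev q = ev p := fun f p q h => by
    simpa [constantCoeff_crd, ev] using S.zero f _ _ h
  have hc : Un O (ev Λ / h') := by
    obtain ⟨_, j, g, hj, hg, rfl⟩ := hex (locS r (ctr ev hO hev)) (loc_locS hr) map_mem_locS
    have hle : (locS r (ctr ev hO hev)).comap φ ≤ O := fun f hf =>
      (zero_dom hr φ ev hz0 _ O hev (fun x => not_not) hf).1
    obtain ⟨x, y, hx, hy, e⟩ := (un_locS_iff hr).1
      (hΛ _ _ (loc_locS hr) map_mem_locS ⟨j, g, hj, hg, rfl⟩)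
    have hg0 : φ g ≠ 0 := by simpa using hg.2.1
    have h1 := hz0 g (Λ * y) x (by rw [map_mul, ← e]; field_simp)
    have h2 : Un O (ev y) := not_not.1 hy
    have h3 := ((M.un_gen hO (fun b hb => hle (hj hb)) hi (hg.mono hle) hh').mul
      (not_not.1 hx)).div h2
    convert h3 using 1
    rw [div_mul_eq_mul_div, h1, map_mul]
    field_simp [h2.2.1]
  have hc0 : ev Λ ≠ 0 := fun h => hc.2.1 (by simp [h])
  refine ⟨C (ev Λ)⁻¹ * crd O.subtype u Λ, by
    simpa [constantCoeff_crd, ev] using inv_mul_cancel₀ hc0, fun W g hW h1 h2 hg => ?_⟩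
  have := (hΛ W g hW (map_mem_of_gen r W (fun c => hC c ▸ h1 c.2) fun l => hX l ▸ h2 l) hg).mul
    (un_comap.1 (hc.inv.mono h1))
  convert this using 1
  rw [inv_div, map_div₀, map_mul]
  have e1 : ι (C (ev Λ)⁻¹) = ((ι.comp C) (ev Λ))⁻¹ := map_inv₀ (ι.comp C) _
  rw [e1]
  change _ = ι _ / _ * (ι _ / _)
  ring

theorem exists_lambda [Finite I] [Nonempty I] (a : Finset K) : ∃ Λ, constantCoeff Λ = 1 ∧
    ∀ (i : I) (W : Subring Ω) (h : σ → K) (h' : K) (g : Ω), Loc W →
      (M.B i : Set K) ⊆ W.comap (ι.comp C) →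
      (∀ l, Gen (M.B i) (d l).a (W.comap (ι.comp C)) (h l)) →
      (∀ l, ι (X l) / ι (C (h l)) ^ m l ∈ W) → Gen (M.B i) a (W.comap (ι.comp C)) h' →
      Pb M φ a W g → ι Λ * ι (C h') / g ∈ W := by
  let L : MvPolynomial σ K → Prop := fun Λ => constantCoeff Λ = 1 ∧
    ∀ W g, Loc W → (∀ x, ι x ∈ W) → Pb M φ a W g → Un W (ι Λ / g)
  have hK : ∀ {W : Subring Ω} {c : K}, (∀ x, ι x ∈ W) → c ≠ 0 → Un W (ι (C c)) :=
    fun {W c} hx hc => un_comap (φ := ι.comp C).1 ⟨hx _, hc, hx _⟩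
  have uniq : ∀ Λ Λ', L Λ → L Λ' → Λ = Λ' := by
    have : ∀ Λ Λ', L Λ → L Λ' → Λ' ∣ Λ := fun Λ Λ' h h' => by
      have h0 : ι Λ' ≠ 0 := (map_ne_zero_iff _ S.inj).2 fun h0 => by simpa [h0] using h'.1
      obtain ⟨x, hx⟩ := mem_range_of_loc (r := ι) (ω := ι Λ / ι Λ') fun n _ => by
        obtain ⟨i⟩ := ‹Nonempty I›
        have hW := loc_locS (p := n) S.inj
        choose g hg using fun l => M.exists_gen (i := i) (hW.comap (ι.comp C))
          (fun b _ => map_mem_locS _) (d l).a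
        obtain ⟨j, hj⟩ := S.good i _ g hW (fun b _ => map_mem_locS _) hg fun l =>
          ((hK map_mem_locS (hg l).2.1).pow _).div_mem (map_mem_locS _)
        obtain ⟨g', hg'⟩ := M.exists_gen (hW.comap φ) hj a
        have := ((h.2 _ _ hW map_mem_locS ⟨j, g', hj, hg', rfl⟩).div
          (h'.2 _ _ hW map_mem_locS ⟨j, g', hj, hg', rfl⟩)).1
        rwa [div_div_div_cancel_right₀ (by simpa using hg'.2.1)] at this
      exact ⟨x, S.inj (by rw [map_mul, hx, mul_div_cancel₀ _ h0])⟩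
    intro Λ Λ' h h'
    obtain ⟨u, rfl⟩ := associated_of_dvd_dvd (this _ _ h' h) (this _ _ h h')
    obtain ⟨c, -, hc⟩ := isUnit_iff_eq_C_of_isReduced.1 u.isUnit
    have h1 := h'.1
    rw [hc, map_mul, h.1, one_mul, constantCoeff_C] at h1
    rw [hc, h1, C_1, mul_one]
  have key : ∀ (i : I) (W : Subring Ω) (h : σ → K) (h' : K), Loc W →
      (M.B i : Set K) ⊆ W.comap (ι.comp C) →
      (∀ l, Gen (M.B i) (d l).a (W.comap (ι.comp C)) (h l)) →
      (∀ l, ι (X l) / ι (C (h l)) ^ m l ∈ W) → Gen (M.B i) a (W.comap (ι.comp C)) h' →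
      ∃ Λ, L Λ ∧ ∀ g, Pb M φ a W g → ι Λ * ι (C h') / g ∈ W := fun i W h h' hW hi hh hX hh' => by
    obtain ⟨O, hO, _, h1, h2, -⟩ := M.ufd i _ (hW.comap _) hi
    choose h₀ hh₀ using fun l => M.exists_gen hO h1 (d l).a
    obtain ⟨h₀', hh₀'⟩ := M.exists_gen hO h1 a
    obtain ⟨Λ, hΛ, H⟩ := S.exists_local a hO h1 hh₀ hh₀'
    refine ⟨Λ, ⟨hΛ, fun W' g hW' hx hg => ?_⟩, fun g hg => ?_⟩
    · have h3 := hK hx hh₀'.2.1
      have := (H W' g hW' (fun c _ => hx _)
        (fun l => ((hK hx (hh₀ l).2.1).pow _).div_mem (hx _)) hg).div h3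
      rwa [div_right_comm, mul_div_cancel_right₀ _ h3.2.1] at this
    · have h3 := H W g hW h2 (fun l => by
        have := W.mul_mem (hX l) (W.pow_mem
          (M.un_gen (hW.comap _) hi hi (hh l) ((hh₀ l).mono h2)).1 (m l))
        have h4 : ι (C (h l)) ≠ 0 := (map_ne_zero (ι.comp C)).2 (hh l).2.1
        rwa [map_div₀, div_pow, RingHom.comp_apply, RingHom.comp_apply,
          div_mul_div_cancel₀ (pow_ne_zero _ h4)] at this) hg
      have := W.mul_mem h3.1 (M.un_gen (hW.comap _) hi hi hh' (hh₀'.mono h2)).1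
      convert this using 1
      have h4 : ι (C h₀') ≠ 0 := (map_ne_zero (ι.comp C)).2 hh₀'.2.1
      rw [map_div₀]
      change _ = _ * (ι _ / ι _)
      field_simp
  obtain ⟨i₀⟩ := ‹Nonempty I›
  choose g hg using fun l => M.exists_gen (i := i₀) (loc_top.comap (ι.comp C))
    (fun _ _ => trivial) (d l).a
  obtain ⟨g', hg'⟩ := M.exists_gen (i := i₀) (loc_top.comap (ι.comp C)) (fun _ _ => trivial) a
  obtain ⟨Λ, hΛ, -⟩ := key i₀ ⊤ g g' loc_top (fun _ _ => trivial) hg (fun _ => trivial) hg'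
  refine ⟨Λ, hΛ.1, fun i W h h' g hW hi hh hX hh' hg => ?_⟩
  obtain ⟨Λ', hΛ', H⟩ := key i W h h' hW hi hh hX hh'
  exact uniq _ _ hΛ hΛ' ▸ H g hg

end State

end Pool.Agent.MP_e8e0b6_ag
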