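import Pool.Agent.MP_e8e0b6_ag.G.State

/-!
Any finite family of local sprays can be composed.
-/

set_option linter.unusedSectionVars false

open MvPolynomial TrivSqZeroExt

namespace Pool.Agent.MP_e8e0b6_ag

variable {k K I : Type} [Field k] [Field K] [Algebra k K] {σ : Type} {M : Model k K I}

theorem der_sum {R A N ι : Type} [CommRing R] [CommRing A] [Algebra R A] [AddCommGroup N]
    [Module A N] [Module R N] (s : Finset ι) (D : ι → Derivation R A N) (a : A) :
    (∑ i ∈ s, D i) a = ∑ i ∈ s, D i a := by
  classical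
  induction s using Finset.induction_on with
  | empty => simp
  | insert i s hi ih => simp [Finset.sum_insert hi, ih]

theorem jetAt_C (c : σ → K) (a : K) : jetAt c (C a) = inl a := by simp [jetAt]; rfl

theorem jetAt_X (c : σ → K) (l : σ) : jetAt c (X l) = inr (c l) := by simp [jetAt]

theorem jetAt_rename {τ : Type} (c : τ → K) (e : σ → τ) (p : MvPolynomial σ K) :
    jetAt c (rename e p) = jetAt (c ∘ e) p := aeval_rename _ _ _

theorem state_empty [Fintype PEmpty] (d : PEmpty → Datum M) (m : PEmpty → ℕ) :
    State M d m (constantCoeff : MvPolynomial PEmpty K →+* K) (RingHom.id K) where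
  inj := (injective_iff_map_eq_zero _).2 fun p hp => by
    rw [eq_C_of_isEmpty p, ← constantCoeff_eq, hp, C_0]
  frac ω := ⟨C ω, 1, by simp, by simp⟩
  const c := by simp
  jet c f := by simpa [jetAt_C] using Ext.of (r := constantCoeff) (θ := jetAt c) (C f)
  good i W h _ hi _ _ := ⟨i, fun b hb => by simpa using hi hb⟩

theorem State.reindex [Fintype σ] {τ : Type} [Fintype τ] (e : σ ≃ τ) {d : τ → Datum M} {m : σ → ℕ}
    {Ω : Type} [Field Ω] {ι : MvPolynomial σ K →+* Ω} {φ : K →+* Ω}
    (S : State M (d ∘ e) m ι φ) : State M d (m ∘ e.symm) (ι.comp (rename e.symm).toRingHom) φ where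
  inj := S.inj.comp (rename_injective _ e.symm.injective)
  frac ω := by
    obtain ⟨p, q, hq, h⟩ := S.frac ω
    exact ⟨rename e p, rename e q, by simpa [rename_eq_zero_iff_of_injective _ e.injective] using hq,
      by simpa using h⟩
  const c := by simpa using S.const c
  jet c f := by
    have := (S.jet (c ∘ e) f).trans (RingHom.id Ω) (r' := ι.comp (rename e.symm).toRingHom)
      (θ' := jetAt c) fun x => by
        have := Ext.of (r := ι.comp (rename e.symm).toRingHom) (θ := jetAt c) (rename e x)
        simpa [jetAt_rename] using this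
    rwa [← e.sum_comp]
  good i W h hW hi hh hX := by
    have e1 : (ι.comp (rename e.symm).toRingHom).comp C = ι.comp C := RingHom.ext fun c => by simp
    rw [e1] at hi hh
    exact S.good i W (h ∘ e) hW hi (fun l => hh (e l)) fun l => by simpa using hX (e l)

variable {Ω : Type} [Field Ω]

/-- Adjunction of one variable. -/
noncomputable def adjVar (ι : MvPolynomial σ K →+* Ω) : MvPolynomial (Option σ) K →+* RatFunc Ω :=
  ((algebraMap (Polynomial Ω) (RatFunc Ω)).comp (Polynomial.mapRingHom ι)).comp
    (optionEquivLeft K σ).toRingHom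

theorem adjVar_none (ι : MvPolynomial σ K →+* Ω) : adjVar ι (X none) = RatFunc.X := by
  simp [adjVar]

theorem adjVar_rename (ι : MvPolynomial σ K →+* Ω) (p : MvPolynomial σ K) :
    adjVar ι (rename some p) = algebraMap Ω _ (ι p) := by
  have : (adjVar ι).comp (rename some).toRingHom = (algebraMap Ω _).comp ι :=
    ringHom_ext (fun a => by simp [adjVar]) fun l => by simp [adjVar]
  exact DFunLike.congr_fun this p

/-- The substitution `t ↦ λ T`. -/
noncomputable def subst (φ : K →+* Ω) (l : Ω) : Polynomial K →+* RatFunc Ω :=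
  Polynomial.eval₂RingHom ((algebraMap Ω _).comp φ) (algebraMap Ω _ l * RatFunc.X)

theorem subst_inj (φ : K →+* Ω) {l : Ω} (hl : l ≠ 0) : Function.Injective (subst φ l) := by
  have : subst φ l = ((algebraMap (Polynomial Ω) (RatFunc Ω)).comp
      (Polynomial.compRingHom (Polynomial.C l * Polynomial.X))).comp (Polynomial.mapRingHom φ) :=
    Polynomial.ringHom_ext (fun a => by simp [subst]) (by simp [subst])
  rw [this, injective_iff_map_eq_zero]
  intro p hp
  simpa [Polynomial.comp_C_mul_X_eq_zero_iff (mem_nonZeroDivisors_of_ne_zero hl)] using hp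

theorem eval₂_eps (ξ : K →+* DualNumber K) (c : K) (p : Polynomial K) :
    p.eval₂ ξ (inr c) = ξ (p.coeff 0) + ξ (p.coeff 1) * inr c := by
  conv_lhs => rw [← p.X_mul_divX_add, ← p.divX.X_mul_divX_add]
  simp [Polynomial.eval₂_add, Polynomial.eval₂_mul, mul_add, ← mul_assoc, Polynomial.coeff_divX]
  ring

/-- The jet homomorphism of a derivation. -/
noncomputable def jetHom (D : Derivation k K K) : K →+* DualNumber K where
  toFun f := inl f + inr (D f)
  map_one' := by simp
  map_zero' := by simp
  map_add' x y := by ext <;> simp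
  map_mul' x y := by ext <;> simp [mul_comm]

theorem State.step [Finite I] [Nonempty I] [Fintype σ] {d : Option σ → Datum M} {m : σ → ℕ}
    {ι : MvPolynomial σ K →+* Ω} {φ : K →+* Ω} (S : State M (d ∘ some) m ι φ) :
    ∃ (m' : Option σ → ℕ) (φ' : K →+* RatFunc Ω), State M d m' (adjVar ι) φ' := by
  obtain ⟨Λ, hΛ, H⟩ := S.exists_lambda (d none).a
  obtain ⟨n, hn⟩ := (d none).exists_twist
  have h0 : ι Λ ^ n ≠ 0 := pow_ne_zero _ ((map_ne_zero_iff _ S.inj).2 fun h => by simp [h] at hΛ)
  let χ : RatFunc K →+* RatFunc Ω := IsFractionRing.lift (subst_inj φ h0)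
  have hχ : ∀ p, χ (algebraMap _ _ p) = subst φ (ι Λ ^ n) p := IsFractionRing.lift_algebraMap _
  have hχC : ∀ c, χ (algebraMap K _ c) = algebraMap Ω _ (φ c) := fun c => by
    simpa [subst] using hχ (Polynomial.C c)
  have hχX : χ RatFunc.X = algebraMap Ω _ (ι Λ ^ n) * RatFunc.X := by
    simpa [subst] using hχ Polynomial.X
  have hC : ∀ c, adjVar ι (C c) = algebraMap Ω _ (ι (C c)) := fun c => by
    simpa using adjVar_rename ι (C c)
  have hinj : Function.Injective (adjVar ι) := ((IsFractionRing.injective _ _).comp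
    (Polynomial.map_injective _ S.inj)).comp (optionEquivLeft K σ).injective
  refine ⟨fun l => l.elim n m, χ.comp (d none).φ, hinj, fun ω => ?_, fun c => ?_, fun c f => ?_,
    fun i W h hW hi hh hX => ?_⟩
  · have h1 : ∀ p : Polynomial Ω, algebraMap _ (RatFunc Ω) p ∈ locS (adjVar ι) ⊥ := fun p => by
      induction p using Polynomial.induction_on' with
      | add p q hp hq => rw [map_add]; exact Subring.add_mem _ hp hq
      | monomial l c =>
        obtain ⟨p, q, hq, e⟩ := S.frac c
        rw [← Polynomial.C_mul_X_pow_eq_monomial, map_mul, map_pow, RatFunc.algebraMap_X]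
        refine Subring.mul_mem _ ⟨rename some p, rename some q, ?_, ?_⟩
          (Subring.pow_mem _ (adjVar_none ι ▸ map_mem_locS _) _)
        · simpa [rename_eq_zero_iff_of_injective _ (Option.some_injective σ)] using hq
        · rw [adjVar_rename, adjVar_rename, ← e, map_mul]; simp
    induction ω using RatFunc.induction_on with
    | f p q hq => exact (un_locS_bot hinj (h1 q) (by simpa using hq)).div_mem (h1 p)
  · rw [RingHom.comp_apply, (d none).const, hχC, S.const, hC]
  · have h1 : ∀ {ω j}, Ext ι (jetAt (c ∘ some)) ω j →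
        Ext (adjVar ι) (jetAt c) (algebraMap Ω _ ω) j := fun h => h.trans _ fun x => by
      have := Ext.of (r := adjVar ι) (θ := jetAt c) (rename some x)
      rw [adjVar_rename] at this
      simpa [jetAt_rename] using this
    let D : Derivation k K K := ∑ l, c (some l) • (d (some l)).δ
    have hD : ∀ f, Ext (adjVar ι) (jetAt c) (algebraMap Ω _ (φ f)) (jetHom D f) := fun f => by
      have := h1 (S.jet (c ∘ some) f)
      simpa [jetHom, D, der_sum] using this
    have hX : Ext (adjVar ι) (jetAt c) (algebraMap Ω _ (ι Λ ^ n) * RatFunc.X) (inr (c none)) := by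
      have := (h1 ((Ext.of Λ).pow n)).mul (Ext.of (r := adjVar ι) (θ := jetAt c) (X none))
      rw [adjVar_none] at this
      convert this using 1
      ext <;> simp [jetAt_X, fst_jetAt, hΛ]
    have hP : ∀ p : Polynomial K, Ext (adjVar ι) (jetAt c) (subst φ (ι Λ ^ n) p)
        (p.eval₂ (jetHom D) (inr (c none))) := fun p => by
      induction p using Polynomial.induction_on' with
      | add p q hp hq => rw [map_add, Polynomial.eval₂_add]; exact hp.add hq
      | monomial l a =>
        rw [Polynomial.eval₂_monomial]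
        simpa [subst] using (hD a).mul (hX.pow l)
    obtain ⟨p, q, hq, e1, e2⟩ := (d none).jet f
    have e3 : ∀ p : Polynomial K, (Polynomial.aeval (inr 1 : DualNumber K)).toRingHom p =
        inl (p.coeff 0) + inl (p.coeff 1) * inr 1 := fun p =>
      eval₂_eps (algebraMap K (DualNumber K)) 1 p
    rw [e3, e3] at e2
    rw [e3, isUnit_iff_isUnit_fst] at hq
    have e4 : f * q.coeff 0 = p.coeff 0 := by simpa using congrArg fst e2
    have e5 : f * q.coeff 1 + (d none).δ f * q.coeff 0 = p.coeff 1 := by
      simpa [mul_comm, add_comm] using congrArg snd e2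
    refine (hP p).of_mul (hP q) ?_ (by rw [← hχ, ← hχ, ← e1, map_mul]; rfl) ?_
    · rw [eval₂_eps, isUnit_iff_isUnit_fst]
      simpa [jetHom] using hq
    · rw [eval₂_eps, eval₂_eps, ← e4, ← e5]
      ext
      · simp [jetHom]
      · have e6 : ∑ l, c l * (d l).δ f = c none * (d none).δ f + D f := by
          simp [Fintype.sum_option, D, der_sum]
        rw [e6]
        clear_value D
        simp [jetHom]
        ring
  · have e1 : W.comap ((adjVar ι).comp C) = (W.comap (algebraMap Ω _)).comap (ι.comp C) := by
      ext c; simp [hC]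
    rw [e1] at hi hh
    have hX' : ∀ l, ι (X l) / ι (C (h (some l))) ^ m l ∈ W.comap (algebraMap Ω _) := fun l => by
      have := hX (some l)
      rw [← rename_X, adjVar_rename, hC] at this
      simpa using this
    obtain ⟨j, hj⟩ := S.good i _ (h ∘ some) (hW.comap _) hi (fun l => hh (some l)) hX'
    obtain ⟨g, hg⟩ := M.exists_gen ((hW.comap _).comap φ) hj (d none).a
    have h2 := H i _ (h ∘ some) (h none) _ (hW.comap _) hi (fun l => hh (some l)) hX' (hh none)
      ⟨j, g, hj, hg, rfl⟩
    have e2 : (W.comap χ).comap (algebraMap K _) = (W.comap (algebraMap Ω _)).comap φ := by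
      ext c; simp only [Subring.mem_comap, hχC]
    refine hn j (W.comap χ) g (hW.comap _) (e2 ▸ hj) (e2 ▸ hg) ?_
    have h3 := W.mul_mem (W.pow_mem h2 n) (hX none)
    rw [adjVar_none, hC] at h3
    have h4 : algebraMap Ω (RatFunc Ω) (ι (C (h none))) ≠ 0 :=
      (map_ne_zero _).2 ((map_ne_zero (ι.comp C)).2 (hh none).2.1)
    change χ _ ∈ W
    convert h3 using 1
    rw [map_div₀, map_pow, hχX, hχC, map_div₀, map_mul, map_pow, div_pow, mul_pow]
    simp only [Option.elim]
    field_simp

theorem exists_state [Finite I] [Nonempty I] (σ : Type) [Finite σ] :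
    ∀ [Fintype σ] (d : σ → Datum M), ∃ (m : σ → ℕ) (Ω : Type) (_ : Field Ω)
      (ι : MvPolynomial σ K →+* Ω) (φ : K →+* Ω), State M d m ι φ := by
  induction σ using Finite.induction_empty_option with
  | @of_equiv α β e ih =>
    intro _ d
    have := Fintype.ofEquiv β e.symm
    obtain ⟨m, Ω, _, ι, φ, S⟩ := ih (d ∘ e)
    exact ⟨_, Ω, _, _, _, S.reindex e⟩
  | h_empty =>
    intro _ d
    exact ⟨fun _ => 0, K, _, _, _, state_empty d _⟩
  | h_option ih =>
    intro i d
    obtain rfl : i = instFintypeOption := Subsingleton.elim _ _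
    obtain ⟨m, Ω, _, ι, φ, S⟩ := ih (d ∘ some)
    obtain ⟨m', φ', S'⟩ := S.step
    exact ⟨m', _, _, _, _, S'⟩

end Pool.Agent.MP_e8e0b6_ag
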